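import Pool.Agent.Work.MP_78978c_an.Defs

/-!
The counterexample spaces and maps.
-/

set_option autoImplicit false
set_option linter.unusedSectionVars false
set_option linter.unusedVariables false

namespace Pool.Agent.Work.MP_78978c_an

open Finset Filter Topology

/-- `f` has period `2 ^ n` -/
def IsPer (n : ℕ) (f : ℕ → ℝ) : Prop := ∀ i, f (i + 2 ^ n) = f i

/-- average over the first `2 ^ n` values -/
noncomputable def avg (n : ℕ) (f : ℕ → ℝ) : ℝ := (∑ i ∈ range (2 ^ n), f i) / 2 ^ n

lemma IsPer.succ {n : ℕ} {f : ℕ → ℝ} (h : IsPer n f) : IsPer (n + 1) f := by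
  intro i
  rw [pow_succ, mul_two, ← add_assoc, h, h]

lemma IsPer.mono {n m : ℕ} {f : ℕ → ℝ} (h : IsPer n f) (hnm : n ≤ m) : IsPer m f := by
  induction m, hnm using Nat.le_induction with
  | base => exact h
  | succ k _ ih => exact ih.succ

lemma IsPer.avg_succ {n : ℕ} {f : ℕ → ℝ} (h : IsPer n f) : avg (n + 1) f = avg n f := by
  unfold avg
  rw [pow_succ, mul_two, sum_range_add]
  have : ∀ i ∈ range (2 ^ n), f (2 ^ n + i) = f i := by
    intro i _
    rw [add_comm, h]
  rw [sum_congr rfl this, pow_succ]
  field_simp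
  ring

lemma IsPer.avg_eq {n m : ℕ} {f : ℕ → ℝ} (h : IsPer n f) (hnm : n ≤ m) : avg m f = avg n f := by
  induction m, hnm using Nat.le_induction with
  | base => rfl
  | succ k hk ih => rw [(h.mono hk).avg_succ, ih]

open Classical in
/-- mean value of a function with period a power of two -/
noncomputable def mean (f : ℕ → ℝ) : ℝ :=
  if h : ∃ n, IsPer n f then avg (Nat.find h) f else 0

lemma IsPer.mean_eq {n : ℕ} {f : ℕ → ℝ} (h : IsPer n f) : mean f = avg n f := by
  classical
  have hex : ∃ n, IsPer n f := ⟨n, h⟩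
  unfold mean
  rw [dif_pos hex]
  exact ((Nat.find_spec hex).avg_eq (Nat.find_min' hex h)).symm

lemma IsPer.add {n : ℕ} {f g : ℕ → ℝ} (hf : IsPer n f) (hg : IsPer n g) :
    IsPer n (fun i => f i + g i) := fun i => by simp only [hf i, hg i]

lemma IsPer.mul {n : ℕ} {f g : ℕ → ℝ} (hf : IsPer n f) (hg : IsPer n g) :
    IsPer n (fun i => f i * g i) := fun i => by simp only [hf i, hg i]

lemma IsPer.comp {n : ℕ} {f : ℕ → ℝ} (φ : ℝ → ℝ) (hf : IsPer n f) :
    IsPer n (fun i => φ (f i)) := fun i => by simp only [hf i]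

lemma avg_add (n : ℕ) (f g : ℕ → ℝ) : avg n (fun i => f i + g i) = avg n f + avg n g := by
  unfold avg
  rw [sum_add_distrib, add_div]

lemma avg_const (n : ℕ) (c : ℝ) : avg n (fun _ => c) = c := by
  unfold avg
  rw [sum_const, card_range, nsmul_eq_mul]
  push_cast
  field_simp

lemma avg_mono (n : ℕ) {f g : ℕ → ℝ} (h : ∀ i, f i ≤ g i) : avg n f ≤ avg n g := by
  unfold avg
  gcongr
  exact h _

/-- the Riesz space `E` of real functions on `ℕ` with period a power of two -/
noncomputable def perSub : Submodule ℝ (ℕ → ℝ) where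
  carrier := {f | ∃ n, IsPer n f}
  add_mem' := by
    rintro f g ⟨n, hf⟩ ⟨m, hg⟩
    exact ⟨max n m, (hf.mono (le_max_left _ _)).add (hg.mono (le_max_right _ _))⟩
  zero_mem' := ⟨0, fun i => rfl⟩
  smul_mem' := by
    rintro c f ⟨n, hf⟩
    exact ⟨n, hf.comp (fun t => c * t)⟩

/-- the type of elements of `E` -/
abbrev PerE : Type := ↥perSub

noncomputable instance : Lattice PerE where
  sup f g := ⟨fun i => f.1 i ⊔ g.1 i, by
    obtain ⟨n, hf⟩ := f.2
    obtain ⟨m, hg⟩ := g.2
    refine ⟨max n m, fun i => ?_⟩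
    have h1 := hf.mono (le_max_left n m) i
    have h2 := hg.mono (le_max_right n m) i
    simp only [h1, h2]⟩
  le_sup_left f g := fun i => le_sup_left
  le_sup_right f g := fun i => le_sup_right
  sup_le f g h h1 h2 := fun i => sup_le (h1 i) (h2 i)
  inf f g := ⟨fun i => f.1 i ⊓ g.1 i, by
    obtain ⟨n, hf⟩ := f.2
    obtain ⟨m, hg⟩ := g.2
    refine ⟨max n m, fun i => ?_⟩
    have h1 := hf.mono (le_max_left n m) i
    have h2 := hg.mono (le_max_right n m) i
    simp only [h1, h2]⟩
  inf_le_left f g := fun i => inf_le_left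
  inf_le_right f g := fun i => inf_le_right
  le_inf f g h h1 h2 := fun i => le_inf (h1 i) (h2 i)

instance : IsOrderedAddMonoid PerE where
  add_le_add_left f g h k := fun i => add_le_add_left (h i) _

instance : PosSMulMono ℝ PerE where
  smul_le_smul_of_nonneg_left c hc f g h := fun i => mul_le_mul_of_nonneg_left (h i) hc

lemma sup_apply (f g : PerE) (i : ℕ) : (f ⊔ g).1 i = f.1 i ⊔ g.1 i := rfl
lemma inf_apply (f g : PerE) (i : ℕ) : (f ⊓ g).1 i = f.1 i ⊓ g.1 i := rfl
lemma abs_apply (f : PerE) (i : ℕ) : (|f|).1 i = |f.1 i| := rfl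
lemma add_apply (f g : PerE) (i : ℕ) : (f + g).1 i = f.1 i + g.1 i := rfl

lemma perp_iff {f g : PerE} : Perp f g ↔ ∀ i, f.1 i = 0 ∨ g.1 i = 0 := by
  unfold Perp
  constructor
  · intro h i
    have h1 := congrArg (fun z : PerE => z.1 i) h
    simp only [inf_apply, abs_apply] at h1
    have h2 : min |f.1 i| |g.1 i| = 0 := h1
    rcases min_choice |f.1 i| |g.1 i| with h3 | h3
    · left; rw [h3] at h2; exact abs_eq_zero.mp h2
    · right; rw [h3] at h2; exact abs_eq_zero.mp h2
  · intro h
    apply Subtype.ext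
    funext i
    rw [inf_apply, abs_apply, abs_apply]
    rcases h i with h | h
    · rw [h]; simp
    · rw [h]; simp

/-- The set `K`: functions with values in `{-1, 0, 1}`, period a power of two, and support of
density `< 1/2`. -/
def KSet : Type :=
  {g : ℕ → ℝ // (∀ i, g i = -1 ∨ g i = 0 ∨ g i = 1) ∧ (∃ n, IsPer n g) ∧
    mean (fun i => |g i|) < 1 / 2}

/-- the pairing -/
noncomputable def pair (x : PerE) (g : KSet) : ℝ := mean (fun i => x.1 i * g.1 i)

/-- The topology of `K`: the coarsest one for which all maps `g ↦ mean (x g)`, `x ∈ E`, are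
continuous. -/
noncomputable instance : TopologicalSpace KSet :=
  TopologicalSpace.induced (fun g : KSet => fun x : PerE => pair x g) inferInstance

lemma continuous_pair (x : PerE) : Continuous (fun g : KSet => pair x g) := by
  have h : Continuous (fun g : KSet => fun x : PerE => pair x g) := continuous_induced_dom
  exact (continuous_apply x).comp h

lemma tendsto_K {ι : Type*} {l : Filter ι} {u : ι → KSet} {g : KSet}
    (h : ∀ x : PerE, Tendsto (fun i => pair x (u i)) l (𝓝 (pair x g))) :
    Tendsto u l (𝓝 g) := by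
  rw [nhds_induced, tendsto_comap_iff]
  exact tendsto_pi_nhds.mpr h

lemma common_per (x : PerE) (g : KSet) : ∃ n, IsPer n x.1 ∧ IsPer n g.1 := by
  obtain ⟨n, hf⟩ := x.2
  obtain ⟨m, hg⟩ := g.2.2.1
  exact ⟨max n m, hf.mono (le_max_left _ _), hg.mono (le_max_right _ _)⟩

/-- norm functional -/
noncomputable def nrm (x : PerE) : ℝ := mean (fun i => |x.1 i|)

lemma pair_eq {x : PerE} {g : KSet} {n : ℕ} (h1 : IsPer n x.1) (h2 : IsPer n g.1) :
    pair x g = avg n (fun i => x.1 i * g.1 i) := (h1.mul h2).mean_eq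

lemma nrm_eq {x : PerE} {n : ℕ} (h1 : IsPer n x.1) : nrm x = avg n (fun i => |x.1 i|) :=
  (h1.comp abs).mean_eq

lemma K_abs_le (g : KSet) (i : ℕ) : |g.1 i| ≤ 1 := by
  rcases g.2.1 i with h | h | h <;> rw [h] <;> simp

lemma abs_pair_le (x : PerE) (g : KSet) : |pair x g| ≤ nrm x := by
  obtain ⟨n, h1, h2⟩ := common_per x g
  rw [pair_eq h1 h2, nrm_eq h1]
  have hb : ∀ i, |x.1 i * g.1 i| ≤ |x.1 i| := by
    intro i
    rw [abs_mul]
    exact mul_le_of_le_one_right (abs_nonneg _) (K_abs_le g i)
  rw [abs_le]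
  constructor
  · have := avg_mono n (f := fun i => -|x.1 i|) (g := fun i => x.1 i * g.1 i)
      (fun i => by have := abs_le.mp (hb i); linarith [this.1])
    have h3 : avg n (fun i => -|x.1 i|) = -avg n (fun i => |x.1 i|) := by
      unfold avg; rw [sum_neg_distrib, neg_div]
    linarith
  · exact avg_mono n (fun i => (abs_le.mp (hb i)).2)

/-- The orthogonally additive operator `S x (g) = 2 mean (x g)`. -/
noncomputable def opS (x : PerE) : C(KSet, ℝ) := ⟨fun g => 2 * pair x g, (continuous_pair x).const_mul 2⟩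

/-- The operator `W x (g) = mean |x| + mean (x g)`. -/
noncomputable def opW (x : PerE) : C(KSet, ℝ) :=
  ⟨fun g => nrm x + pair x g, (continuous_pair x).const_add _⟩

lemma pair_add (x y : PerE) (g : KSet) : pair (x + y) g = pair x g + pair y g := by
  obtain ⟨n, h1, h2⟩ := common_per x g
  obtain ⟨m, h3, h4⟩ := common_per y g
  have a1 := h1.mono (le_max_left n m)
  have a2 := h2.mono (le_max_left n m)
  have a3 := h3.mono (le_max_right n m)
  have a5 : IsPer (max n m) (x + y).1 := a1.add a3
  rw [pair_eq a1 a2, pair_eq a3 a2, pair_eq a5 a2, ← avg_add]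
  congr 1
  funext i
  rw [add_apply]; ring

lemma nrm_add {x y : PerE} (h : Perp x y) : nrm (x + y) = nrm x + nrm y := by
  rw [perp_iff] at h
  obtain ⟨n, h1⟩ := x.2
  obtain ⟨m, h3⟩ := y.2
  have a1 := h1.mono (le_max_left n m)
  have a3 := h3.mono (le_max_right n m)
  have a5 : IsPer (max n m) (x + y).1 := a1.add a3
  rw [nrm_eq a1, nrm_eq a3, nrm_eq a5, ← avg_add]
  congr 1
  funext i
  rw [add_apply]
  rcases h i with h | h <;> rw [h] <;> simp

lemma orthAdditive_opS : OrthAdditive opS := by
  intro x y _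
  ext g
  show 2 * pair (x + y) g = 2 * pair x g + 2 * pair y g
  rw [pair_add]; ring

lemma orthAdditive_opW : OrthAdditive opW := by
  intro x y h
  ext g
  show nrm (x + y) + pair (x + y) g = (nrm x + pair x g) + (nrm y + pair y g)
  rw [pair_add, nrm_add h]; ring

lemma orthAdditive_zero : OrthAdditive (fun _ : PerE => (0 : C(KSet, ℝ))) := by
  intro x y _
  simp

lemma opS_le_opW (x : PerE) : opS x ≤ opW x := by
  intro g
  show 2 * pair x g ≤ nrm x + pair x g
  have := (abs_le.mp (abs_pair_le x g)).2
  linarith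

lemma zero_le_opW (x : PerE) : 0 ≤ opW x := by
  intro g
  show 0 ≤ nrm x + pair x g
  have := (abs_le.mp (abs_pair_le x g)).1
  linarith

/-- the bit of `i` at position `j`, as a sign -/
noncomputable def rad (j i : ℕ) : ℝ := if (i / 2 ^ j) % 2 = 0 then 1 else -1

lemma rad_add (j i : ℕ) : rad j (i + 2 ^ j) = -rad j i := by
  unfold rad
  rw [Nat.add_div_right _ (by positivity)]
  rcases Nat.mod_two_eq_zero_or_one (i / 2 ^ j) with h | h
  · rw [if_pos h, if_neg (by omega)]
  · rw [if_neg (by omega : ¬ (i / 2 ^ j) % 2 = 0), if_pos (by omega), neg_neg]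

lemma rad_per (j : ℕ) : IsPer (j + 1) (rad j) := by
  intro i
  rw [pow_succ, mul_two, ← add_assoc, rad_add, rad_add, neg_neg]

lemma rad_cases (j i : ℕ) : rad j i = 1 ∨ rad j i = -1 := by
  unfold rad
  split_ifs <;> simp

lemma abs_rad (j i : ℕ) : |rad j i| = 1 := by
  rcases rad_cases j i with h | h <;> rw [h] <;> simp

/-- functions of period `2 ^ j` are orthogonal to `rad j` -/
lemma avg_mul_rad {j : ℕ} {f : ℕ → ℝ} (hf : IsPer j f) :
    avg (j + 1) (fun i => f i * rad j i) = 0 := by
  unfold avg
  rw [pow_succ, mul_two, sum_range_add]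
  have : ∀ i ∈ range (2 ^ j), f (2 ^ j + i) * rad j (2 ^ j + i) = -(f i * rad j i) := by
    intro i _
    rw [add_comm, hf, rad_add]; ring
  rw [sum_congr rfl this, sum_neg_distrib]
  simp

section main

variable {q : PerE → KSet → ℝ}

/-- L1: `q y g ≤ 0` if `|y| = y g`. -/
lemma step1 (hq2 : ∀ x g, q x g ≤ nrm x - pair x g) (y : PerE) (g : KSet)
    (h : ∀ i, |y.1 i| = y.1 i * g.1 i) : q y g ≤ 0 := by
  have h1 : nrm y = pair y g := by
    unfold nrm pair
    congr 1
    funext i
    exact h i
  have := hq2 y g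
  linarith

lemma step1' (hq1 : ∀ x g, q x g ≤ nrm x + pair x g) (y : PerE) (g : KSet)
    (h : ∀ i, |y.1 i| = -(y.1 i * g.1 i)) : q y g ≤ 0 := by
  obtain ⟨n, h1, h2⟩ := common_per y g
  have h3 : nrm y = -pair y g := by
    rw [nrm_eq h1, pair_eq h1 h2]
    unfold avg
    rw [← neg_div, ← sum_neg_distrib]
    congr 1
    apply sum_congr rfl
    intro i _
    exact h i
  have := hq1 y g
  linarith

/-- If `y` has constant sign and `g = ±1` on the support of `y` with constant value, then
`q y g ≤ 0`. -/
lemma step2 (hq1 : ∀ x g, q x g ≤ nrm x + pair x g) (hq2 : ∀ x g, q x g ≤ nrm x - pair x g)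
    (y : PerE) (g : KSet) (c : ℝ) (hc : ∀ i, y.1 i = 0 ∨ y.1 i = c) (s : ℝ)
    (hs : s = 1 ∨ s = -1) (hg : ∀ i, y.1 i ≠ 0 → g.1 i = s) : q y g ≤ 0 := by
  rcases le_total 0 c with h0 | h0
  · rcases hs with rfl | rfl
    · apply step1 hq2
      intro i
      by_cases hy : y.1 i = 0
      · rw [hy]; simp
      · rw [hg i hy]
        rcases hc i with h | h
        · exact absurd h hy
        · rw [h, abs_of_nonneg h0]; ring
    · apply step1' hq1
      intro i
      by_cases hy : y.1 i = 0
      · rw [hy]; simp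
      · rw [hg i hy]
        rcases hc i with h | h
        · exact absurd h hy
        · rw [h, abs_of_nonneg h0]; ring
  · rcases hs with rfl | rfl
    · apply step1' hq1
      intro i
      by_cases hy : y.1 i = 0
      · rw [hy]; simp
      · rw [hg i hy]
        rcases hc i with h | h
        · exact absurd h hy
        · rw [h, abs_of_nonpos h0]; ring
    · apply step1 hq2
      intro i
      by_cases hy : y.1 i = 0
      · rw [hy]; simp
      · rw [hg i hy]
        rcases hc i with h | h
        · exact absurd h hy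
        · rw [h, abs_of_nonpos h0]; ring

lemma per_mod {n : ℕ} {f : ℕ → ℝ} (hf : IsPer n f) (i : ℕ) : f i = f (i % 2 ^ n) := by
  have h : ∀ k r, f (r + k * 2 ^ n) = f r := by
    intro k r
    induction k with
    | zero => simp
    | succ k ih =>
      rw [add_mul, one_mul, ← add_assoc, hf, ih]
  conv_lhs => rw [← Nat.mod_add_div i (2 ^ n), mul_comm (2 ^ n)]
  exact h _ _

/-- indicator of the residue class of `a` modulo `2 ^ n` -/
noncomputable def ind (n a : ℕ) (i : ℕ) : ℝ := if i % 2 ^ n = a then 1 else 0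

lemma ind_per (n a : ℕ) : IsPer n (ind n a) := by
  intro i
  unfold ind
  rw [Nat.add_mod_right]

lemma avg_ind {n a : ℕ} (ha : a < 2 ^ n) : avg n (ind n a) = 1 / 2 ^ n := by
  unfold avg
  congr 1
  have : ∀ i ∈ range (2 ^ n), ind n a i = if i = a then 1 else 0 := by
    intro i hi
    unfold ind
    rw [Nat.mod_eq_of_lt (mem_range.mp hi)]
  rw [sum_congr rfl this, sum_ite_eq' (range (2 ^ n)) a]
  simp [ha]

/-- The modified point `g + 1_A rad_j` of `K`. -/
lemma exists_gj (g : KSet) (n a : ℕ) (ha : a < 2 ^ n) (hg : IsPer n g.1) (hga : g.1 a = 0)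
    (hsmall : mean (fun i => |g.1 i|) + 1 / 2 ^ n < 1 / 2) (j : ℕ) (hj : n ≤ j) :
    ∃ g' : KSet, ∀ i, g'.1 i = g.1 i + ind n a i * rad j i := by
  have hzero : ∀ i, i % 2 ^ n = a → g.1 i = 0 := by
    intro i hi
    rw [per_mod hg i, hi, hga]
  have hp1 : IsPer (j + 1) g.1 := hg.mono (by omega)
  have hp2 : IsPer (j + 1) (ind n a) := (ind_per n a).mono (by omega)
  have hp : IsPer (j + 1) (fun i => g.1 i + ind n a i * rad j i) := hp1.add (hp2.mul (rad_per j))
  refine ⟨⟨fun i => g.1 i + ind n a i * rad j i, ?_, ⟨j + 1, hp⟩, ?_⟩, fun i => rfl⟩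
  · intro i
    by_cases hi : i % 2 ^ n = a
    · simp only [hzero i hi, ind, if_pos hi, zero_add, one_mul]
      rcases rad_cases j i with h | h <;> rw [h] <;> simp
    · simp only [ind, if_neg hi, zero_mul, add_zero]
      exact g.2.1 i
  · have habs : (fun i => |g.1 i + ind n a i * rad j i|) = fun i => |g.1 i| + ind n a i := by
      funext i
      by_cases hi : i % 2 ^ n = a
      · simp only [hzero i hi, ind, if_pos hi, zero_add, one_mul, abs_rad, abs_zero]
      · simp only [ind, if_neg hi, zero_mul, add_zero]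
    have hpa : IsPer n (fun i => |g.1 i|) := hg.comp abs
    rw [habs, (hpa.add (ind_per n a)).mean_eq, avg_add, avg_ind ha, ← hpa.mean_eq]
    exact hsmall

/-- On a small residue class, `q (c 1_A) g ≤ 0`. -/
lemma step3 (hq1 : ∀ x g, q x g ≤ nrm x + pair x g) (hq2 : ∀ x g, q x g ≤ nrm x - pair x g)
    (hqadd : ∀ x y, Perp x y → ∀ g, q (x + y) g = q x g + q y g)
    (hqcont : ∀ x, Continuous (q x)) (g : KSet) (n a : ℕ) (ha : a < 2 ^ n) (hg : IsPer n g.1)
    (hsmall : mean (fun i => |g.1 i|) + 1 / 2 ^ n < 1 / 2) (y : PerE) (c : ℝ)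
    (hy : ∀ i, y.1 i = c * ind n a i) : q y g ≤ 0 := by
  have hyc : ∀ i, y.1 i = 0 ∨ y.1 i = c := by
    intro i
    rw [hy i]
    unfold ind
    split_ifs <;> simp
  have hysupp : ∀ i, y.1 i ≠ 0 → i % 2 ^ n = a := by
    intro i hi
    by_contra hne
    apply hi
    rw [hy i, ind, if_neg hne, mul_zero]
  rcases g.2.1 a with hga | hga | hga
  · refine step2 hq1 hq2 y g c hyc (-1) (Or.inr rfl) ?_
    intro i hi
    rw [per_mod hg i, hysupp i hi, hga]
  · -- the interesting case
    choose g' hg' using exists_gj g n a ha hg hga hsmall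
    set u : ℕ → KSet := fun k => g' (n + k) (by omega) with hu
    have hu' : ∀ k i, (u k).1 i = g.1 i + ind n a i * rad (n + k) i := fun k i => hg' _ _ i
    have hzero : ∀ i, i % 2 ^ n = a → g.1 i = 0 := by
      intro i hi
      rw [per_mod hg i, hi, hga]
    have hlim : Tendsto u atTop (𝓝 g) := by
      apply tendsto_K
      intro x
      apply tendsto_const_nhds.congr'
      obtain ⟨m, hm⟩ := x.2
      filter_upwards [eventually_ge_atTop m] with k hk
      have p1 : IsPer (n + k + 1) x.1 := hm.mono (by omega)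
      have p2 : IsPer (n + k + 1) g.1 := hg.mono (by omega)
      have p3 : IsPer (n + k + 1) (u k).1 := by
        have : (u k).1 = fun i => g.1 i + ind n a i * rad (n + k) i := by
          funext i; exact hu' k i
        rw [this]
        exact p2.add (((ind_per n a).mono (by omega)).mul (rad_per _))
      rw [pair_eq p1 p2, pair_eq p1 p3]
      have h1 : (fun i => x.1 i * (u k).1 i) =
          fun i => x.1 i * g.1 i + (x.1 i * ind n a i) * rad (n + k) i := by
        funext i; rw [hu' k i]; ring
      rw [h1, avg_add]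
      have h2 : IsPer (n + k) (fun i => x.1 i * ind n a i) :=
        (hm.mono (by omega)).mul ((ind_per n a).mono (by omega))
      rw [avg_mul_rad h2, add_zero]
    have hle : ∀ k, q y (u k) ≤ 0 := by
      intro k
      have hper : IsPer (n + k + 1) (fun i => rad (n + k) i) := rad_per _
      let y1 : PerE := ⟨fun i => c * ind n a i * ((1 + rad (n + k) i) / 2), by
        refine ⟨n + k + 1, ?_⟩
        exact (((ind_per n a).mono (by omega)).comp (fun t => c * t)).mul
          (hper.comp (fun t => (1 + t) / 2))⟩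
      let y2 : PerE := ⟨fun i => c * ind n a i * ((1 - rad (n + k) i) / 2), by
        refine ⟨n + k + 1, ?_⟩
        exact (((ind_per n a).mono (by omega)).comp (fun t => c * t)).mul
          (hper.comp (fun t => (1 - t) / 2))⟩
      have hy12 : y = y1 + y2 := by
        apply Subtype.ext
        funext i
        show y.1 i = c * ind n a i * ((1 + rad (n + k) i) / 2) +
          c * ind n a i * ((1 - rad (n + k) i) / 2)
        rw [hy i]; ring
      have hperp : Perp y1 y2 := by
        rw [perp_iff]
        intro i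
        rcases rad_cases (n + k) i with h | h
        · right
          show c * ind n a i * ((1 - rad (n + k) i) / 2) = 0
          rw [h]; ring
        · left
          show c * ind n a i * ((1 + rad (n + k) i) / 2) = 0
          rw [h]; ring
      have e1 : q y1 (u k) ≤ 0 := by
        refine step2 hq1 hq2 y1 (u k) c ?_ 1 (Or.inl rfl) ?_
        · intro i
          show c * ind n a i * ((1 + rad (n + k) i) / 2) = 0 ∨
            c * ind n a i * ((1 + rad (n + k) i) / 2) = c
          unfold ind
          rcases rad_cases (n + k) i with h | h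
          · rw [h]; split_ifs <;> simp
          · rw [h]; left; ring
        · intro i hi
          have hi' : c * ind n a i * ((1 + rad (n + k) i) / 2) ≠ 0 := hi
          have hia : i % 2 ^ n = a := by
            by_contra hne
            apply hi'
            simp [ind, hne]
          rcases rad_cases (n + k) i with h | h
          · rw [hu' k i, hzero i hia, h, ind, if_pos hia]; ring
          · exfalso; apply hi'; rw [h]; ring
      have e2 : q y2 (u k) ≤ 0 := by
        refine step2 hq1 hq2 y2 (u k) c ?_ (-1) (Or.inr rfl) ?_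
        · intro i
          show c * ind n a i * ((1 - rad (n + k) i) / 2) = 0 ∨
            c * ind n a i * ((1 - rad (n + k) i) / 2) = c
          unfold ind
          rcases rad_cases (n + k) i with h | h
          · rw [h]; left; ring
          · rw [h]; split_ifs <;> simp
        · intro i hi
          have hi' : c * ind n a i * ((1 - rad (n + k) i) / 2) ≠ 0 := hi
          have hia : i % 2 ^ n = a := by
            by_contra hne
            apply hi'
            simp [ind, hne]
          rcases rad_cases (n + k) i with h | h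
          · exfalso; apply hi'; rw [h]; ring
          · rw [hu' k i, hzero i hia, h, ind, if_pos hia]; ring
      rw [hy12, hqadd y1 y2 hperp]
      linarith
    exact le_of_tendsto (((hqcont y).tendsto g).comp hlim) (Eventually.of_forall hle)
  · refine step2 hq1 hq2 y g c hyc 1 (Or.inl rfl) ?_
    intro i hi
    rw [per_mod hg i, hysupp i hi, hga]

/-- `q x g ≤ 0` for all `x` and `g`. -/
lemma step4 (hq1 : ∀ x g, q x g ≤ nrm x + pair x g) (hq2 : ∀ x g, q x g ≤ nrm x - pair x g)
    (hqadd : ∀ x y, Perp x y → ∀ g, q (x + y) g = q x g + q y g)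
    (hqcont : ∀ x, Continuous (q x)) (x : PerE) (g : KSet) : q x g ≤ 0 := by
  obtain ⟨n0, hx0, hg0⟩ := common_per x g
  have hpos : 0 < 1 / 2 - mean (fun i => |g.1 i|) := by linarith [g.2.2.2]
  obtain ⟨n1, hn1⟩ := exists_pow_lt_of_lt_one hpos (by norm_num : (1 / 2 : ℝ) < 1)
  set n := max n0 n1 with hn
  have hx : IsPer n x.1 := hx0.mono (le_max_left _ _)
  have hg : IsPer n g.1 := hg0.mono (le_max_left _ _)
  have hsmall : mean (fun i => |g.1 i|) + 1 / 2 ^ n < 1 / 2 := by
    have h1 : (1 / 2 : ℝ) ^ n ≤ (1 / 2) ^ n1 :=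
      pow_le_pow_of_le_one (by norm_num) (by norm_num) (le_max_right _ _)
    have h2 : (1 / 2 : ℝ) ^ n = 1 / 2 ^ n := by rw [div_pow, one_pow]
    linarith
  -- partial sums over residue classes
  have key : ∀ M : ℕ, M ≤ 2 ^ n → ∀ z : PerE,
      (∀ i, z.1 i = if i % 2 ^ n < M then x.1 i else 0) → q z g ≤ 0 := by
    intro M
    induction M with
    | zero =>
      intro _ z hz
      have hz0 : z = 0 := by
        apply Subtype.ext
        funext i
        rw [hz i]
        simp
      have h0 : q (0 : PerE) g = 0 := by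
        have := hqadd 0 0 (perp_iff.mpr fun i => Or.inl rfl) g
        rw [add_zero] at this
        linarith
      rw [hz0, h0]
    | succ M ih =>
      intro hM z hz
      let z1 : PerE := ⟨fun i => if i % 2 ^ n < M then x.1 i else 0, ⟨n, fun i => by
        simp only [Nat.add_mod_right]
        rw [hx i]⟩⟩
      let z2 : PerE := ⟨fun i => x.1 M * ind n M i, ⟨n, (ind_per n M).comp (fun t => x.1 M * t)⟩⟩
      have hz12 : z = z1 + z2 := by
        apply Subtype.ext
        funext i
        show z.1 i = (if i % 2 ^ n < M then x.1 i else 0) + x.1 M * ind n M i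
        rw [hz i, ind]
        rcases lt_trichotomy (i % 2 ^ n) M with h | h | h
        · rw [if_pos (by omega), if_pos h, if_neg (by omega)]; ring
        · rw [if_pos (by omega), if_neg (by omega), if_pos h, per_mod hx i, h]; ring
        · rw [if_neg (by omega), if_neg (by omega), if_neg (by omega)]; ring
      have hperp : Perp z1 z2 := by
        rw [perp_iff]
        intro i
        by_cases h : i % 2 ^ n < M
        · right
          show x.1 M * ind n M i = 0
          rw [ind, if_neg (by omega), mul_zero]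
        · left
          show (if i % 2 ^ n < M then x.1 i else 0) = 0
          rw [if_neg h]
      rw [hz12, hqadd z1 z2 hperp]
      have e1 := ih (by omega) z1 (fun i => rfl)
      have e2 := step3 hq1 hq2 hqadd hqcont g n M (by omega) hg hsmall z2 (x.1 M) (fun i => rfl)
      linarith
  refine key (2 ^ n) le_rfl x ?_
  intro i
  rw [if_pos (Nat.mod_lt _ (by positivity))]

/-- Every orthogonally additive majorant of `S` and `0` majorizes `W`. -/
theorem opW_le (P : PerE → C(KSet, ℝ)) (hP : OrthAdditive P) (h1 : ∀ x, opS x ≤ P x)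
    (h2 : ∀ x, 0 ≤ P x) (x : PerE) : opW x ≤ P x := by
  intro g
  have h := step4 (q := fun x g => opW x g - P x g) ?_ ?_ ?_ ?_ x g
  · simpa using h
  · intro x g
    have := h2 x g
    show (nrm x + pair x g) - P x g ≤ nrm x + pair x g
    have h3 : (0 : ℝ) ≤ P x g := this
    linarith
  · intro x g
    have h3 : 2 * pair x g ≤ P x g := h1 x g
    show (nrm x + pair x g) - P x g ≤ nrm x - pair x g
    linarith
  · intro x y hxy g
    have e1 : opW (x + y) g = opW x g + opW y g := by
      rw [orthAdditive_opW x y hxy]; rfl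
    have e2 : P (x + y) g = P x g + P y g := by
      rw [hP x y hxy]; rfl
    show opW (x + y) g - P (x + y) g = (opW x g - P x g) + (opW y g - P y g)
    rw [e1, e2]; ring
  · intro x
    exact (opW x).continuous.sub (P x).continuous

end main

/-- the constant function `1` of `E` -/
noncomputable def oneE : PerE := ⟨fun _ => 1, ⟨0, fun i => rfl⟩⟩

/-- the constant function with value `c` in `C(K)` -/
noncomputable def constK (c : ℝ) : C(KSet, ℝ) := ContinuousMap.const _ c

/-- `W 1 - 1/2` is an upper bound of all `S u + 0`, where `1 = u ⊔ v`. -/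
theorem upper (u v : PerE) (huv : Perp u v) (h : oneE = u + v) :
    opS u ≤ opW oneE - constK (1 / 2) := by
  intro g
  rw [perp_iff] at huv
  have hu : ∀ i, u.1 i = 0 ∨ u.1 i = 1 := by
    intro i
    have h1 : (1 : ℝ) = u.1 i + v.1 i := congrArg (fun z : PerE => z.1 i) h
    rcases huv i with h2 | h2
    · left; exact h2
    · right; rw [h2, add_zero] at h1; exact h1.symm
  show 2 * pair u g ≤ (nrm oneE + pair oneE g) - 1 / 2
  obtain ⟨n, p1, p2⟩ := common_per u g
  have p3 : IsPer n oneE.1 := fun i => rfl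
  rw [pair_eq p1 p2, pair_eq p3 p2, nrm_eq p3]
  have e1 : avg n (fun i => |oneE.1 i|) = 1 := by
    have : (fun i => |oneE.1 i|) = fun _ => (1 : ℝ) := by
      funext i; show |(1 : ℝ)| = 1; simp
    rw [this, avg_const]
  have e2 : avg n (fun i => |g.1 i|) < 1 / 2 := by
    rw [← (p2.comp abs).mean_eq]; exact g.2.2.2
  have e3 : 2 * avg n (fun i => u.1 i * g.1 i) ≤
      avg n (fun i => |g.1 i|) + avg n (fun i => oneE.1 i * g.1 i) := by
    rw [← avg_add, two_mul, ← avg_add]
    apply avg_mono
    intro i
    show u.1 i * g.1 i + u.1 i * g.1 i ≤ |g.1 i| + 1 * g.1 i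
    have h1 := le_abs_self (g.1 i)
    have h2 := neg_abs_le (g.1 i)
    rcases hu i with h | h <;> rw [h] <;> linarith
  rw [e1]
  linarith

lemma archimedean_C : RieszArchimedean C(KSet, ℝ) := by
  intro x y h g
  show x g ≤ 0
  by_contra hpos
  push Not at hpos
  obtain ⟨n, hn⟩ := exists_nat_gt (y g / x g)
  have h1 : (n • x) g ≤ y g := h n g
  have h2 : (n • x) g = n * x g := by
    rw [ContinuousMap.nsmul_apply, nsmul_eq_mul]
  rw [h2] at h1
  have h3 := (div_lt_iff₀ hpos).mp hn
  linarith

end Pool.Agent.Work.MP_78978c_an
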