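import Pool.Agent.Work.MP_78978c_an.Defs

/-!
Dedekind completion of an Archimedean Riesz space by cuts.
-/

set_option autoImplicit false
set_option linter.unusedSectionVars false
set_option linter.unusedVariables false

namespace Pool.Agent.Work.MP_78978c_an

open Set
open scoped Pointwise

section cl

variable {F : Type*} [AddCommGroup F] [Lattice F] [IsOrderedAddMonoid F]

/-- the closure operator of the Galois connection of bounds -/
def cl (X : Set F) : Set F := lowerBounds (upperBounds X)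

lemma subset_cl (X : Set F) : X ⊆ cl X := fun _ hx _ hu => hu hx

lemma ub_cl (X : Set F) : upperBounds (cl X) = upperBounds X := by
  apply Set.Subset.antisymm
  · exact upperBounds_mono_set (subset_cl X)
  · intro u hu a ha
    exact ha hu

lemma cl_congr {X Y : Set F} (h : upperBounds X = upperBounds Y) : cl X = cl Y := by
  unfold cl; rw [h]

lemma cl_mono {X Y : Set F} (h : X ⊆ Y) : cl X ⊆ cl Y :=
  lowerBounds_mono_set (upperBounds_mono_set h)

lemma cl_cl (X : Set F) : cl (cl X) = cl X := cl_congr (ub_cl X)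

lemma mem_ub_add {X Y : Set F} {u : F} :
    u ∈ upperBounds (X + Y) ↔ ∀ x ∈ X, ∀ y ∈ Y, x + y ≤ u := by
  constructor
  · intro h x hx y hy
    exact h (Set.add_mem_add hx hy)
  · rintro h _ ⟨x, hx, y, hy, rfl⟩
    exact h x hx y hy

lemma ub_cl_add (X Y : Set F) : upperBounds (cl X + Y) = upperBounds (X + Y) := by
  ext u
  rw [mem_ub_add, mem_ub_add]
  constructor
  · intro h x hx y hy
    exact h x (subset_cl X hx) y hy
  · intro h x hx y hy
    have : u - y ∈ upperBounds X := fun x' hx' => le_sub_iff_add_le.mpr (h x' hx' y hy)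
    exact le_sub_iff_add_le.mp (hx this)

lemma cl_cl_add (X Y : Set F) : cl (cl X + Y) = cl (X + Y) := cl_congr (ub_cl_add X Y)

lemma cl_add_cl (X Y : Set F) : cl (X + cl Y) = cl (X + Y) := by
  rw [add_comm, cl_cl_add, add_comm]

end cl

/-- Dedekind cuts of `F`: nonempty, bounded above sets equal to the set of lower bounds of their
upper bounds. -/
def Cut (F : Type*) [AddCommGroup F] [Lattice F] : Type _ :=
  {A : Set F // A.Nonempty ∧ BddAbove A ∧ lowerBounds (upperBounds A) = A}

namespace Cut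

variable {F : Type*} [AddCommGroup F] [Lattice F] [IsOrderedAddMonoid F]

/-- the cut generated by a nonempty bounded above set -/
def ofSet (X : Set F) (h1 : X.Nonempty) (h2 : BddAbove X) : Cut F :=
  ⟨cl X, h1.mono (subset_cl X), by
    obtain ⟨u, hu⟩ := h2
    exact ⟨u, by rw [ub_cl]; exact hu⟩, cl_cl X⟩

lemma cl_eq (A : Cut F) : cl A.1 = A.1 := A.2.2.2

@[ext] lemma ext' {A B : Cut F} (h : A.1 = B.1) : A = B := Subtype.ext h

lemma add_bdd (A B : Cut F) : BddAbove (A.1 + B.1) := by
  obtain ⟨u, hu⟩ := A.2.2.1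
  obtain ⟨v, hv⟩ := B.2.2.1
  refine ⟨u + v, ?_⟩
  rw [mem_ub_add]
  intro x hx y hy
  exact add_le_add (hu hx) (hv hy)

instance : Add (Cut F) := ⟨fun A B => ofSet (A.1 + B.1) (A.2.1.add B.2.1) (add_bdd A B)⟩

lemma add_val (A B : Cut F) : (A + B).1 = cl (A.1 + B.1) := rfl

/-- principal cut -/
def prin (x : F) : Cut F := ofSet {x} (Set.singleton_nonempty x) ⟨x, by simp⟩

lemma prin_val (x : F) : (prin x).1 = cl {x} := rfl

lemma mem_prin {x y : F} : y ∈ (prin x).1 ↔ y ≤ x := by
  rw [prin_val]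
  constructor
  · intro h
    exact h (by simp)
  · intro h u hu
    have : x ≤ u := hu (by simp)
    exact h.trans this

instance : Zero (Cut F) := ⟨prin 0⟩

lemma zero_val : (0 : Cut F).1 = cl {(0 : F)} := rfl

lemma mem_zero {y : F} : y ∈ (0 : Cut F).1 ↔ y ≤ 0 := mem_prin

/-- negation of a cut -/
instance : Neg (Cut F) := ⟨fun A => ⟨{y | -y ∈ upperBounds A.1}, by
    obtain ⟨u, hu⟩ := A.2.2.1
    exact ⟨-u, by simpa using hu⟩, by
    obtain ⟨a, ha⟩ := A.2.1
    refine ⟨-a, ?_⟩
    intro y hy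
    have := hy ha
    exact le_neg.mpr this, by
    apply Set.Subset.antisymm
    · intro y hy a ha
      have : -a ∈ upperBounds {y | -y ∈ upperBounds A.1} := by
        intro z hz
        exact le_neg.mpr (hz ha)
      exact le_neg.mp (hy this)
    · exact subset_cl _⟩⟩

lemma mem_neg {A : Cut F} {y : F} : y ∈ (-A).1 ↔ -y ∈ upperBounds A.1 := Iff.rfl

lemma add_comm' (A B : Cut F) : A + B = B + A := by
  ext1; rw [add_val, add_val, add_comm]

lemma add_assoc' (A B C : Cut F) : A + B + C = A + (B + C) := by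
  ext1; rw [add_val, add_val, add_val, add_val, cl_cl_add, cl_add_cl, add_assoc]

lemma zero_add' (A : Cut F) : 0 + A = A := by
  ext1; rw [add_val, zero_val, cl_cl_add]
  simp [cl_eq]

lemma neg_add' (hF : RieszArchimedean F) (A : Cut F) : -A + A = 0 := by
  ext1
  rw [add_val, zero_val]
  apply cl_congr
  ext w
  rw [mem_ub_add]
  constructor
  · intro h
    -- `w ≥ a - u` for all `a ∈ A`, `u` upper bound
    have h1 : ∀ a ∈ A.1, a - w ∈ A.1 := by
      intro a ha
      rw [← A.2.2.2]
      intro u hu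
      have := h (-u) (by rw [mem_neg]; simpa using hu) a ha
      have h2 : a ≤ w + u := by
        have := add_le_add_right this u
        simpa [add_comm, add_left_comm, add_assoc] using this
      exact sub_le_iff_le_add'.mpr h2
    obtain ⟨a, ha⟩ := A.2.1
    obtain ⟨u, hu⟩ := A.2.2.1
    have h2 : ∀ n : ℕ, a - n • w ∈ A.1 := by
      intro n
      induction n with
      | zero => simpa using ha
      | succ n ih =>
        have := h1 _ ih
        rw [succ_nsmul]
        rwa [sub_sub] at this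
    have h3 : ∀ n : ℕ, n • (-w) ≤ u - a := by
      intro n
      have := hu (h2 n)
      rw [smul_neg]
      rw [le_sub_iff_add_le]
      rw [neg_add_eq_sub]
      exact this
    have h4 := hF _ _ h3
    simpa using h4
  · intro h x hx y hy
    have hw : (0 : F) ≤ w := h (by simp)
    rw [mem_neg] at hx
    have := hx hy
    have h3 : x + y ≤ 0 := by
      have := add_le_add_right this x
      simpa using this
    exact h3.trans hw


variable [hFA : Fact (RieszArchimedean F)]

instance : AddCommGroup (Cut F) where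
  add_assoc := add_assoc'
  zero_add := zero_add'
  add_zero := fun A => by rw [add_comm', zero_add']
  nsmul := nsmulRec
  zsmul := zsmulRec
  neg_add_cancel := neg_add' hFA.out
  add_comm := add_comm'

instance : PartialOrder (Cut F) := PartialOrder.lift (fun A : Cut F => A.1) Subtype.val_injective

lemma le_def {A B : Cut F} : A ≤ B ↔ A.1 ⊆ B.1 := Iff.rfl

lemma ofSet_le {X : Set F} {h1 : X.Nonempty} {h2 : BddAbove X} {B : Cut F} :
    ofSet X h1 h2 ≤ B ↔ X ⊆ B.1 := by
  constructor
  · intro h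
    exact (subset_cl X).trans h
  · intro h
    rw [le_def, ← cl_eq B]
    exact cl_mono h

/-- lower set property -/
lemma mem_of_le {A : Cut F} {x y : F} (hx : x ∈ A.1) (hy : y ≤ x) : y ∈ A.1 := by
  rw [← cl_eq A]
  intro u hu
  exact hy.trans (hu hx)

lemma sup_mem {A : Cut F} {x y : F} (hx : x ∈ A.1) (hy : y ∈ A.1) : x ⊔ y ∈ A.1 := by
  rw [← cl_eq A]
  intro u hu
  exact sup_le (hu hx) (hu hy)

lemma bdd_union (A B : Cut F) : BddAbove (A.1 ∪ B.1) := A.2.2.1.union B.2.2.1

lemma inter_nonempty (A B : Cut F) : (A.1 ∩ B.1).Nonempty := by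
  obtain ⟨a, ha⟩ := A.2.1
  obtain ⟨b, hb⟩ := B.2.1
  exact ⟨a ⊓ b, mem_of_le ha inf_le_left, mem_of_le hb inf_le_right⟩

lemma cl_inter (A B : Cut F) : cl (A.1 ∩ B.1) = A.1 ∩ B.1 := by
  apply Set.Subset.antisymm
  · apply Set.subset_inter
    · rw [← cl_eq A, ]
      conv_rhs => rw [cl_eq A]
      calc cl (cl A.1 ∩ B.1) ⊆ cl (cl A.1) := cl_mono Set.inter_subset_left
        _ = A.1 := by rw [cl_cl, cl_eq]
    · calc cl (A.1 ∩ B.1) ⊆ cl B.1 := cl_mono Set.inter_subset_right
        _ = B.1 := cl_eq B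
  · exact subset_cl _

instance : Lattice (Cut F) where
  sup A B := ofSet (A.1 ∪ B.1) (A.2.1.mono Set.subset_union_left) (bdd_union A B)
  le_sup_left A B := Set.subset_union_left.trans (subset_cl _)
  le_sup_right A B := Set.subset_union_right.trans (subset_cl _)
  sup_le A B C h1 h2 := ofSet_le.mpr (Set.union_subset h1 h2)
  inf A B := ⟨A.1 ∩ B.1, inter_nonempty A B, A.2.2.1.mono Set.inter_subset_left, cl_inter A B⟩
  inf_le_left A B := Set.inter_subset_left
  inf_le_right A B := Set.inter_subset_right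
  le_inf A B C h1 h2 := Set.subset_inter h1 h2

instance : IsOrderedAddMonoid (Cut F) where
  add_le_add_left A B h C := by
    rw [le_def, add_val, add_val]
    exact cl_mono (Set.add_subset_add h le_rfl)

lemma isLUB_exists (S : Set (Cut F)) (hS : S.Nonempty) (hb : BddAbove S) : ∃ C, IsLUB S C := by
  obtain ⟨B, hB⟩ := hb
  obtain ⟨A0, hA0⟩ := hS
  have hne : (⋃ A ∈ S, A.1).Nonempty := by
    obtain ⟨a, ha⟩ := A0.2.1
    exact ⟨a, Set.mem_biUnion hA0 ha⟩
  have hsub : (⋃ A ∈ S, A.1) ⊆ B.1 := Set.iUnion₂_subset fun A hA => hB hA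
  have hbd : BddAbove (⋃ A ∈ S, A.1) := B.2.2.1.mono hsub
  refine ⟨ofSet _ hne hbd, ?_, ?_⟩
  · intro A hA
    exact (Set.subset_biUnion_of_mem (u := fun A : Cut F => A.1) hA).trans (subset_cl _)
  · intro C hC
    exact ofSet_le.mpr (Set.iUnion₂_subset fun A hA => hC hA)

section module

variable [Module ℝ F] [PosSMulMono ℝ F]

lemma smul_bdd {c : ℝ} (hc : 0 ≤ c) (A : Cut F) : BddAbove ((fun a => c • a) '' A.1) := by
  obtain ⟨u, hu⟩ := A.2.2.1
  refine ⟨c • u, ?_⟩
  rintro _ ⟨a, ha, rfl⟩
  exact smul_le_smul_of_nonneg_left (hu ha) hc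

/-- multiplication by a nonnegative scalar -/
def nnsmul (c : ℝ) (hc : 0 ≤ c) (A : Cut F) : Cut F :=
  ofSet ((fun a => c • a) '' A.1) (A.2.1.image _) (smul_bdd hc A)

lemma mem_ub_image {c : ℝ} {X : Set F} {u : F} :
    u ∈ upperBounds ((fun a => c • a) '' X) ↔ ∀ a ∈ X, c • a ≤ u := by
  constructor
  · intro h a ha
    exact h ⟨a, ha, rfl⟩
  · rintro h _ ⟨a, ha, rfl⟩
    exact h a ha

lemma smul_le_iff {c : ℝ} (hc : 0 < c) {a u : F} : c • a ≤ u ↔ a ≤ c⁻¹ • u := by
  constructor
  · intro h
    have := smul_le_smul_of_nonneg_left h (inv_nonneg.mpr hc.le)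
    rwa [smul_smul, inv_mul_cancel₀ hc.ne', one_smul] at this
  · intro h
    have := smul_le_smul_of_nonneg_left h hc.le
    rwa [smul_smul, mul_inv_cancel₀ hc.ne', one_smul] at this

lemma ub_image_cl {c : ℝ} (hc : 0 ≤ c) {X : Set F} (hX : X.Nonempty) :
    upperBounds ((fun a => c • a) '' cl X) = upperBounds ((fun a => c • a) '' X) := by
  ext u
  rw [mem_ub_image, mem_ub_image]
  constructor
  · intro h a ha
    exact h a (subset_cl X ha)
  · intro h a ha
    rcases hc.eq_or_lt with rfl | hc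
    · obtain ⟨x, hx⟩ := hX
      have := h x hx
      simpa using this
    · rw [smul_le_iff hc]
      apply ha
      intro x hx
      rw [← smul_le_iff hc]
      exact h x hx

lemma nnsmul_val {c : ℝ} (hc : 0 ≤ c) (A : Cut F) :
    (nnsmul c hc A).1 = cl ((fun a => c • a) '' A.1) := rfl

lemma nnsmul_add {c : ℝ} (hc : 0 ≤ c) (A B : Cut F) :
    nnsmul c hc (A + B) = nnsmul c hc A + nnsmul c hc B := by
  ext1
  rw [nnsmul_val, add_val, add_val, nnsmul_val, nnsmul_val, cl_cl_add, cl_add_cl]
  apply cl_congr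
  rw [ub_image_cl hc (A.2.1.add B.2.1)]
  ext u
  rw [mem_ub_image, mem_ub_add]
  constructor
  · rintro h _ ⟨a, ha, rfl⟩ _ ⟨b, hb, rfl⟩
    have := h (a + b) (Set.add_mem_add ha hb)
    rwa [smul_add] at this
  · rintro h _ ⟨a, ha, b, hb, rfl⟩
    have := h (c • a) ⟨a, ha, rfl⟩ (c • b) ⟨b, hb, rfl⟩
    rwa [← smul_add] at this

lemma nnsmul_add_smul {c d : ℝ} (hc : 0 ≤ c) (hd : 0 ≤ d) (A : Cut F) :
    nnsmul (c + d) (add_nonneg hc hd) A = nnsmul c hc A + nnsmul d hd A := by
  ext1
  rw [nnsmul_val, add_val, nnsmul_val, nnsmul_val, cl_cl_add, cl_add_cl]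
  apply cl_congr
  ext u
  rw [mem_ub_image, mem_ub_add]
  constructor
  · rintro h _ ⟨a, ha, rfl⟩ _ ⟨b, hb, rfl⟩
    have := h (a ⊔ b) (sup_mem ha hb)
    refine le_trans ?_ this
    rw [add_smul]
    exact add_le_add (smul_le_smul_of_nonneg_left le_sup_left hc)
      (smul_le_smul_of_nonneg_left le_sup_right hd)
  · rintro h a ha
    have := h (c • a) ⟨a, ha, rfl⟩ (d • a) ⟨a, ha, rfl⟩
    rwa [← add_smul] at this

lemma nnsmul_mul {c d : ℝ} (hc : 0 ≤ c) (hd : 0 ≤ d) (A : Cut F) :
    nnsmul (c * d) (mul_nonneg hc hd) A = nnsmul c hc (nnsmul d hd A) := by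
  ext1
  rw [nnsmul_val, nnsmul_val, nnsmul_val]
  apply cl_congr
  rw [ub_image_cl hc (A.2.1.image _)]
  ext u
  rw [mem_ub_image, mem_ub_image]
  constructor
  · rintro h _ ⟨a, ha, rfl⟩
    have := h a ha
    rwa [mul_smul] at this
  · rintro h a ha
    have := h (d • a) ⟨a, ha, rfl⟩
    rwa [smul_smul] at this

lemma nnsmul_zero {c : ℝ} (hc : 0 ≤ c) : nnsmul c hc (0 : Cut F) = 0 := by
  have := nnsmul_add hc (0 : Cut F) 0
  rw [add_zero] at this
  simpa using this

lemma nnsmul_neg {c : ℝ} (hc : 0 ≤ c) (A : Cut F) : nnsmul c hc (-A) = -nnsmul c hc A := by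
  have := nnsmul_add hc (-A) A
  rw [neg_add_cancel, nnsmul_zero] at this
  exact eq_neg_of_add_eq_zero_left this.symm

lemma nnsmul_congr {c d : ℝ} (h : c = d) (hc : 0 ≤ c) (hd : 0 ≤ d) (A : Cut F) :
    nnsmul c hc A = nnsmul d hd A := by subst h; rfl

open Classical in
/-- scalar multiplication by reals -/
noncomputable instance : SMul ℝ (Cut F) :=
  ⟨fun c A => if hc : 0 ≤ c then nnsmul c hc A else -nnsmul (-c) (by linarith [not_le.mp hc]) A⟩

lemma smul_nonneg_def {c : ℝ} (hc : 0 ≤ c) (A : Cut F) : c • A = nnsmul c hc A := dif_pos hc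

lemma smul_nonpos_def {c : ℝ} (hc : c ≤ 0) (A : Cut F) :
    c • A = -nnsmul (-c) (by linarith) A := by
  rcases hc.eq_or_lt with rfl | hc'
  · rw [smul_nonneg_def le_rfl]
    have h0 : nnsmul (0 : ℝ) le_rfl A = 0 := by
      have := nnsmul_add_smul (le_refl (0 : ℝ)) le_rfl A
      rw [nnsmul_congr (add_zero 0) _ le_rfl] at this
      simpa using this
    rw [nnsmul_congr (neg_zero (G := ℝ)) _ le_rfl, h0, neg_zero]
  · exact dif_neg (not_le.mpr hc')

lemma neg_smul' (c : ℝ) (A : Cut F) : (-c) • A = -(c • A) := by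
  rcases le_total 0 c with hc | hc
  · rw [smul_nonneg_def hc, smul_nonpos_def (by linarith : -c ≤ 0)]
    rw [nnsmul_congr (neg_neg c) _ hc]
  · rw [smul_nonpos_def hc, smul_nonneg_def (by linarith : 0 ≤ -c), neg_neg]

lemma add_smul_aux {c d : ℝ} (hc : 0 ≤ c) (hd : 0 ≤ d) (A : Cut F) :
    (c + d) • A = c • A + d • A := by
  rw [smul_nonneg_def hc, smul_nonneg_def hd, smul_nonneg_def (add_nonneg hc hd),
    nnsmul_add_smul hc hd]

lemma add_smul_aux2 {c d : ℝ} (hc : 0 ≤ c) (hd : d ≤ 0) (A : Cut F) :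
    (c + d) • A = c • A + d • A := by
  rcases le_total 0 (c + d) with h | h
  · have h1 := add_smul_aux h (by linarith : 0 ≤ -d) A
    rw [neg_smul', add_neg_cancel_right] at h1
    rw [h1]; abel
  · have h1 := add_smul_aux hc (by linarith : 0 ≤ -(c + d)) A
    have h2 : c + -(c + d) = -d := by ring
    rw [h2, neg_smul', neg_smul'] at h1
    have h3 : d • A = -(c • A + -((c + d) • A)) := by rw [← h1, neg_neg]
    rw [h3]; abel

lemma add_smul' (c d : ℝ) (A : Cut F) : (c + d) • A = c • A + d • A := by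
  rcases le_total 0 c with hc | hc
  · rcases le_total 0 d with hd | hd
    · exact add_smul_aux hc hd A
    · exact add_smul_aux2 hc hd A
  · rcases le_total 0 d with hd | hd
    · rw [add_comm c d, add_smul_aux2 hd hc, add_comm]
    · have h1 := add_smul_aux (by linarith : 0 ≤ -c) (by linarith : 0 ≤ -d) A
      have h2 : -c + -d = -(c + d) := by ring
      rw [h2, neg_smul', neg_smul', neg_smul'] at h1
      have h3 := congrArg Neg.neg h1
      rw [neg_neg] at h3
      rw [h3]; abel

lemma smul_add' (c : ℝ) (A B : Cut F) : c • (A + B) = c • A + c • B := by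
  rcases le_total 0 c with hc | hc
  · rw [smul_nonneg_def hc, smul_nonneg_def hc, smul_nonneg_def hc, nnsmul_add]
  · rw [smul_nonpos_def hc, smul_nonpos_def hc, smul_nonpos_def hc, nnsmul_add]; abel

lemma smul_neg' (c : ℝ) (A : Cut F) : c • (-A) = -(c • A) := by
  rcases le_total 0 c with hc | hc
  · rw [smul_nonneg_def hc, smul_nonneg_def hc, nnsmul_neg]
  · rw [smul_nonpos_def hc, smul_nonpos_def hc, nnsmul_neg]

lemma mul_smul_aux {c d : ℝ} (hc : 0 ≤ c) (hd : 0 ≤ d) (A : Cut F) :
    (c * d) • A = c • d • A := by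
  rw [smul_nonneg_def hc, smul_nonneg_def hd, smul_nonneg_def (mul_nonneg hc hd),
    nnsmul_mul hc hd]

lemma mul_smul' (c d : ℝ) (A : Cut F) : (c * d) • A = c • d • A := by
  rcases le_total 0 c with hc | hc
  · rcases le_total 0 d with hd | hd
    · exact mul_smul_aux hc hd A
    · have h1 := mul_smul_aux hc (by linarith : 0 ≤ -d) A
      have h2 : c * -d = -(c * d) := by ring
      rw [h2, neg_smul', neg_smul', smul_neg'] at h1
      exact neg_injective h1
  · rcases le_total 0 d with hd | hd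
    · have h1 := mul_smul_aux (by linarith : 0 ≤ -c) hd A
      have h2 : -c * d = -(c * d) := by ring
      rw [h2, neg_smul', neg_smul'] at h1
      exact neg_injective h1
    · have h1 := mul_smul_aux (by linarith : 0 ≤ -c) (by linarith : 0 ≤ -d) A
      have h2 : -c * -d = c * d := by ring
      rw [h2, neg_smul', neg_smul', smul_neg', neg_neg] at h1
      exact h1

lemma one_smul' (A : Cut F) : (1 : ℝ) • A = A := by
  rw [smul_nonneg_def zero_le_one]
  ext1
  rw [nnsmul_val]
  simp [cl_eq]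

noncomputable instance : Module ℝ (Cut F) where
  one_smul := one_smul'
  mul_smul := mul_smul'
  smul_zero c := by
    have := smul_add' c (0 : Cut F) 0
    rw [add_zero] at this
    simpa using this
  smul_add := smul_add'
  add_smul := add_smul'
  zero_smul A := by
    have := add_smul' 0 0 A
    rw [add_zero] at this
    simpa using this

instance : PosSMulMono ℝ (Cut F) where
  smul_le_smul_of_nonneg_left c hc A B h := by
    rw [smul_nonneg_def hc, smul_nonneg_def hc, le_def, nnsmul_val, nnsmul_val]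
    exact cl_mono (Set.image_mono h)

lemma prin_add (x y : F) : prin (x + y) = prin x + prin y := by
  ext1
  rw [prin_val, add_val, prin_val, prin_val, cl_cl_add, cl_add_cl, Set.singleton_add_singleton]

lemma prin_neg (x : F) : prin (-x) = -prin x := by
  have h := prin_add (-x) x
  rw [neg_add_cancel] at h
  exact eq_neg_of_add_eq_zero_left h.symm

lemma prin_smul_nonneg {c : ℝ} (hc : 0 ≤ c) (x : F) : prin (c • x) = c • prin x := by
  rw [smul_nonneg_def hc]
  ext1
  rw [nnsmul_val, prin_val, prin_val]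
  apply cl_congr
  rw [ub_image_cl hc (Set.singleton_nonempty x), Set.image_singleton]

lemma prin_smul (c : ℝ) (x : F) : prin (c • x) = c • prin x := by
  rcases le_total 0 c with hc | hc
  · exact prin_smul_nonneg hc x
  · have h := prin_smul_nonneg (by linarith : 0 ≤ -c) x
    rw [neg_smul, neg_smul, prin_neg] at h
    exact neg_injective h

lemma prin_le_prin {x y : F} : prin x ≤ prin y ↔ x ≤ y := by
  constructor
  · intro h
    exact mem_prin.mp (h (mem_prin.mpr le_rfl))
  · intro h z hz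
    exact mem_prin.mpr ((mem_prin.mp hz).trans h)

lemma prin_le_iff {x : F} {A : Cut F} : prin x ≤ A ↔ x ∈ A.1 := by
  constructor
  · intro h
    exact h (mem_prin.mpr le_rfl)
  · intro h z hz
    exact mem_of_le h (mem_prin.mp hz)

theorem isDedekindCompletion_prin : IsDedekindCompletion (prin : F → Cut F) where
  injective x y h := le_antisymm (prin_le_prin.mp h.le) (prin_le_prin.mp h.ge)
  map_add := prin_add
  map_smul := prin_smul
  map_sup x y := by
    apply le_antisymm
    · rw [prin_le_iff]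
      have h1 : x ∈ (prin x ⊔ prin y).1 := prin_le_iff.mp le_sup_left
      have h2 : y ∈ (prin x ⊔ prin y).1 := prin_le_iff.mp le_sup_right
      exact sup_mem h1 h2
    · exact sup_le (prin_le_prin.mpr le_sup_left) (prin_le_prin.mpr le_sup_right)
  map_inf x y := by
    apply le_antisymm
    · exact le_inf (prin_le_prin.mpr inf_le_left) (prin_le_prin.mpr inf_le_right)
    · intro z hz
      have h1 : z ≤ x := mem_prin.mp (hz.1)
      have h2 : z ≤ y := mem_prin.mp (hz.2)
      exact mem_prin.mpr (le_inf h1 h2)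
  complete := isLUB_exists
  order_dense A hA := by
    obtain ⟨a, ha, hna⟩ := Set.not_subset.mp (show ¬ A.1 ⊆ (0 : Cut F).1 from hA.not_ge)
    rw [mem_zero] at hna
    have h0 : (0 : F) ∈ A.1 := hA.le (mem_zero.mpr le_rfl)
    refine ⟨a ⊔ 0, ?_, prin_le_iff.mpr (sup_mem ha h0)⟩
    refine lt_of_le_of_ne le_sup_right ?_
    intro h
    exact hna (le_sup_left.trans h.ge)
  majorizing A := by
    obtain ⟨u, hu⟩ := A.2.2.1
    exact ⟨u, fun a ha => mem_prin.mpr (hu ha)⟩

end module

end Cut

/-- Every Archimedean Riesz space has a Dedekind completion. -/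
theorem exists_dedekindCompletion (F : RieszSpace) (hF : RieszArchimedean F) :
    ∃ (G : RieszSpace) (J : F → G), IsDedekindCompletion J := by
  haveI : Fact (RieszArchimedean F) := ⟨hF⟩
  exact ⟨⟨Cut F⟩, Cut.prin, Cut.isDedekindCompletion_prin⟩

end Pool.Agent.Work.MP_78978c_an
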