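import Mathlib

/-!
Definitions for MP_78978c_an: Riesz spaces, orthogonally additive maps, Dedekind completions.
A real Riesz space (vector lattice) is a type `E` with
`[AddCommGroup E] [Lattice E] [IsOrderedAddMonoid E] [Module ℝ E] [PosSMulMono ℝ E]`.
-/

set_option autoImplicit false
set_option linter.unusedSectionVars false

namespace Pool.Agent.Work.MP_78978c_an

/-- A real Riesz space (vector lattice), as a bundled object: a real vector space which is a
lattice, with translation invariant order for which positive scalars preserve the order. -/
structure RieszSpace : Type 1 where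
  /-- the underlying set -/
  carrier : Type
  /-- addition -/
  [group : AddCommGroup carrier]
  /-- lattice order -/
  [lattice : Lattice carrier]
  /-- the order is translation invariant -/
  [ordered : IsOrderedAddMonoid carrier]
  /-- real scalar multiplication -/
  [module : Module ℝ carrier]
  /-- multiplication by positive scalars is monotone -/
  [smulMono : PosSMulMono ℝ carrier]

attribute [instance] RieszSpace.group RieszSpace.lattice RieszSpace.ordered RieszSpace.module
  RieszSpace.smulMono

instance : CoeSort RieszSpace Type := ⟨RieszSpace.carrier⟩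

/-- `F` is Archimedean: if all natural multiples of `x` lie below `y` then `x ≤ 0`. -/
def RieszArchimedean (F : Type*) [AddCommGroup F] [Lattice F] : Prop :=
  ∀ x y : F, (∀ n : ℕ, n • x ≤ y) → x ≤ 0

/-- `x ⊥ y`: the elements `x` and `y` are disjoint, `|x| ∧ |y| = 0`. -/
def Perp {E : Type*} [AddCommGroup E] [Lattice E] (x y : E) : Prop := |x| ⊓ |y| = 0

/-- `T : E → F` is orthogonally additive: `T (x + y) = T x + T y` whenever `x ⊥ y`. -/
def OrthAdditive {E F : Type*} [AddCommGroup E] [Lattice E] [AddCommGroup F] (T : E → F) : Prop :=
  ∀ x y : E, Perp x y → T (x + y) = T x + T y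

/-- The set `𝒪(E, F)` of all orthogonally additive maps `E → F`. -/
def OAMap (E F : Type*) [AddCommGroup E] [Lattice E] [AddCommGroup F] : Type _ :=
  {T : E → F // OrthAdditive T}

/-- `𝒪(E, F)` is ordered pointwise: `S ≤ T` iff `S x ≤ T x` for all `x`. -/
instance (E F : Type*) [AddCommGroup E] [Lattice E] [AddCommGroup F] [Lattice F] :
    PartialOrder (OAMap E F) := Subtype.partialOrder _

/-- `J : F → G` makes `G` a Dedekind completion of `F`: `J` is an injective Riesz homomorphism
(linear, preserving finite suprema and infima), every nonempty subset of `G` that is bounded above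
has a least upper bound, the range of `J` is order dense (below every `y > 0` of `G` there is some
`J x` with `x > 0`) and majorizing. -/
structure IsDedekindCompletion {F G : Type*} [AddCommGroup F] [Lattice F] [Module ℝ F]
    [AddCommGroup G] [Lattice G] [Module ℝ G] (J : F → G) : Prop where
  injective : Function.Injective J
  map_add : ∀ x y, J (x + y) = J x + J y
  map_smul : ∀ (c : ℝ) (x : F), J (c • x) = c • J x
  map_sup : ∀ x y, J (x ⊔ y) = J x ⊔ J y
  map_inf : ∀ x y, J (x ⊓ y) = J x ⊓ J y
  complete : ∀ A : Set G, A.Nonempty → BddAbove A → ∃ s, IsLUB A s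
  order_dense : ∀ y : G, 0 < y → ∃ x : F, 0 < x ∧ J x ≤ y
  majorizing : ∀ y : G, ∃ x : F, y ≤ J x

end Pool.Agent.Work.MP_78978c_an
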